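import Pool.Agent.Q329.HC.Red

/-! Bit vectors and the space bound (helper329). -/

set_option autoImplicit false
set_option linter.unusedVariables false

open Finset

namespace Pool.Agent.Q329.HC

open Alg

/-- Bit vectors. -/
theorem bits (m N T w : ℕ) (hw : 0 < w) : HasStructure m (T * w) N (m * T) w (2 * T) 0 := by
  classical
  obtain ⟨φ⟩ : Nonempty (Finset (Fin w) ≃ Fin (2 ^ w)) := ⟨Fintype.equivFinOfCardEq (by simp)⟩
  obtain ⟨ψ⟩ : Nonempty (Fin m × Fin T ≃ Fin (m * T)) := ⟨Fintype.equivFinOfCardEq (by simp)⟩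
  obtain ⟨M, hM⟩ : ∃ M : (Fin m → Finset ℕ) → Fin m × Fin T → Fin (2 ^ w), M = fun F p =>
      φ (univ.filter fun k : Fin w => p.2.1 * w + k.1 ∈ F p.1) := ⟨_, rfl⟩
  obtain ⟨has, hhas⟩ : ∃ has : List (Fin (2 ^ w)) → ℕ → Prop, has = fun l u =>
      ∃ v, l[u / w]? = some v ∧ (⟨u % w, Nat.mod_lt _ hw⟩ : Fin w) ∈ φ.symm v := ⟨_, rfl⟩
  refine ⟨fun F x => M F (ψ.symm x), fun i j =>
    ((readL (List.ofFn fun y => (i, y))).bind fun l =>
      (readL (List.ofFn fun y => (j, y))).bind fun l' =>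
        Alg.out ((range (T * w)).filter fun u => has l u ∧ has l' u)).mapC ψ,
    fun F h1 h2 i j => ?_⟩
  have key : ∀ (i : Fin m) (u : ℕ), u < T * w →
      (has ((List.ofFn fun y : Fin T => (i, y)).map (M F)) u ↔ u ∈ F i) := by
    intro i u hu
    have h3 : u / w < T := (Nat.div_lt_iff_lt_mul hw).mpr hu
    rw [hhas]
    constructor
    · rintro ⟨v, h4, h5⟩
      rw [List.getElem?_map, List.getElem?_ofFn, dif_pos h3, Option.map_some,
        Option.some.injEq] at h4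
      rw [← h4, hM] at h5
      simp only [Equiv.symm_apply_apply, mem_filter, mem_univ, true_and] at h5
      have h6 : u / w * w + u % w = u := by
        rw [mul_comm]
        exact Nat.div_add_mod u w
      rwa [h6] at h5
    · intro h4
      refine ⟨M F (i, ⟨u / w, h3⟩), ?_, ?_⟩
      · rw [List.getElem?_map, List.getElem?_ofFn, dif_pos h3, Option.map_some]
      · rw [hM]
        simp only [Equiv.symm_apply_apply, mem_filter, mem_univ, true_and]
        have h6 : u / w * w + u % w = u := by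
          rw [mul_comm]
          exact Nat.div_add_mod u w
        rwa [h6]
  have h3 : (fun x => M F (ψ.symm (ψ x))) = M F := by
    funext x
    rw [Equiv.symm_apply_apply]
  beta_reduce
  rw [run_mapC, cost_mapC, h3]
  constructor
  · rw [run_bind, run_readL, run_bind, run_readL]
    show (range (T * w)).filter _ = F i ∩ F j
    ext u
    rw [mem_filter, mem_inter, mem_range]
    constructor
    · rintro ⟨h4, h5, h6⟩
      exact ⟨(key i u h4).mp h5, (key j u h4).mp h6⟩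
    · rintro ⟨h5, h6⟩
      have h4 := h1 i h5
      rw [mem_range] at h4
      exact ⟨h4, (key i u h4).mpr h5, (key j u h4).mpr h6⟩
  · rw [cost_bind, cost_readL, cost_bind, cost_readL, List.length_ofFn, List.length_ofFn]
    show T + (T + 0) ≤ _
    omega

/-- The space bound. -/
theorem upper {m U N w T : ℕ} (hT : w ^ 3 ≤ T) (hTN : T * w ^ 2 ≤ N) (hw : N ^ 2 < 2 ^ w)
    (hUw : U ≤ 2 ^ w) (hm : m ≤ N) (hN : 2 ≤ N) :
    ∃ s, s * (T * w) ≤ 12 * N ^ 2 ∧ HasStructure m U N s w (3 * T + 8) 1 := by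
  have hL1 : 2 ^ Nat.log 2 N ≤ N := Nat.pow_log_le_self 2 (by omega)
  have hL2 : 1 ≤ Nat.log 2 N := Nat.log_pos (by norm_num) hN
  have hL3 : 2 * Nat.log 2 N < w := by
    have h1 : 2 ^ (2 * Nat.log 2 N) < 2 ^ w := by
      rw [mul_comm, pow_mul]
      exact lt_of_le_of_lt (Nat.pow_le_pow_left hL1 2) hw
    exact (Nat.pow_lt_pow_iff_right (by norm_num)).mp h1
  have hw3 : 3 ≤ w := by omega
  have hww : w ≤ w ^ 3 := Nat.le_self_pow (by norm_num) w
  have hT0 : 0 < T := by omega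
  have hK : Nat.log 2 N + 2 ≤ w := by omega
  have h1 := reduction (K := w) hT0 hK (hww.trans hT) hw hUw hm
    (bits (w * N / T) N T w (by omega))
  refine ⟨_, ?_, by
    have h2 : 2 * T + T + 8 = 3 * T + 8 := by ring
    rw [h2] at h1
    exact h1⟩
  obtain ⟨R, hR⟩ : ∃ R, R = w * N / T := ⟨_, rfl⟩
  obtain ⟨B, hB⟩ : ∃ B, B = N / (T * w) := ⟨_, rfl⟩
  rw [← hR, ← hB]
  have hRT : R * T ≤ w * N := by rw [hR]; exact Nat.div_mul_le_self _ _
  have hBT : B * (T * w) ≤ N := by rw [hB]; exact Nat.div_mul_le_self _ _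
  have hTw : T * w ≤ N := by
    refine le_trans ?_ hTN
    exact Nat.mul_le_mul_left _ (Nat.le_self_pow (by norm_num) w)
  have e1 : R * T * (T * w) ≤ N ^ 2 := by
    calc R * T * (T * w) ≤ w * N * (T * w) := Nat.mul_le_mul_right _ hRT
      _ = N * (T * w ^ 2) := by ring
      _ ≤ N * N := Nat.mul_le_mul_left _ hTN
      _ = N ^ 2 := by ring
  have e2 : 4 * N * (T * w) ≤ 4 * N ^ 2 := by
    calc 4 * N * (T * w) ≤ 4 * N * N := Nat.mul_le_mul_left _ hTw
      _ = 4 * N ^ 2 := by ring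
  have e3 : R ^ 2 * (T * w) ≤ N ^ 2 := by
    have h2 : w ^ 2 * (R ^ 2 * (T * w)) ≤ w ^ 2 * N ^ 2 := by
      calc w ^ 2 * (R ^ 2 * (T * w)) = R ^ 2 * T * w ^ 3 := by ring
        _ ≤ R ^ 2 * T * T := Nat.mul_le_mul_left _ hT
        _ = (R * T) ^ 2 := by ring
        _ ≤ (w * N) ^ 2 := Nat.pow_le_pow_left hRT 2
        _ = w ^ 2 * N ^ 2 := by ring
    exact Nat.le_of_mul_le_mul_left h2 (by positivity)
  have e4 : N * B * (T * w) ≤ N ^ 2 := by
    calc N * B * (T * w) = N * (B * (T * w)) := by ring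
      _ ≤ N * N := Nat.mul_le_mul_left _ hBT
      _ = N ^ 2 := by ring
  have e5 : T * w * (T * w) ≤ N ^ 2 := by
    rw [sq]
    exact Nat.mul_le_mul hTw hTw
  have e6 : 3 * (T * w) ≤ 3 * N ^ 2 := by
    have : N ≤ N ^ 2 := Nat.le_self_pow (by norm_num) N
    omega
  calc (R * T + 4 * N + 2 * R ^ 2 + N * B + T * w + 3) * (T * w) =
      R * T * (T * w) + 4 * N * (T * w) + 2 * (R ^ 2 * (T * w)) + N * B * (T * w) +
        T * w * (T * w) + 3 * (T * w) := by ring
    _ ≤ N ^ 2 + 4 * N ^ 2 + 2 * N ^ 2 + N ^ 2 + N ^ 2 + 3 * N ^ 2 := by omega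
    _ = 12 * N ^ 2 := by ring

end Pool.Agent.Q329.HC
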