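import Pool.Agent.Q329.HC.Tools

/-! Elements of large and of small degree (helper329). -/

set_option autoImplicit false
set_option linter.unusedVariables false

open Finset

namespace Pool.Agent.Q329.HC

/-- the number of sets which contain `u` -/
def deg {R : ℕ} (E : Fin R → Finset ℕ) (u : ℕ) : ℕ := (univ.filter fun x => u ∈ E x).card

lemma sum_deg {R U : ℕ} (E : Fin R → Finset ℕ) (hU : ∀ x, E x ⊆ range U) :
    ∑ u ∈ range U, deg E u = ∑ x, (E x).card := by
  unfold deg
  simp only [card_filter]
  rw [sum_comm]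
  refine sum_congr rfl fun x _ => ?_
  rw [← card_filter]
  congr 1
  ext u
  rw [mem_filter]
  exact ⟨fun h => h.2, fun h => ⟨hU x h, h⟩⟩

/-- the elements of large degree -/
def high {R : ℕ} (E : Fin R → Finset ℕ) (U D : ℕ) : Finset ℕ :=
  (range U).filter fun u => D < deg E u

lemma card_high {R U D N V : ℕ} (E : Fin R → Finset ℕ) (hU : ∀ x, E x ⊆ range U)
    (hN : ∑ x, (E x).card ≤ N) (hV : N < (D + 1) * V) : (high E U D).card ≤ V := by
  have h1 : (high E U D).card * (D + 1) ≤ N := by
    calc (high E U D).card * (D + 1) = ∑ _u ∈ high E U D, (D + 1) := by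
          rw [sum_const, smul_eq_mul]
      _ ≤ ∑ u ∈ high E U D, deg E u := by
          refine sum_le_sum fun u hu => ?_
          exact (mem_filter.mp hu).2
      _ ≤ ∑ u ∈ range U, deg E u := sum_le_sum_of_subset (filter_subset _ _)
      _ = ∑ x, (E x).card := sum_deg E hU
      _ ≤ N := hN
  by_contra hcon
  push Not at hcon
  have h2 : (D + 1) * V ≤ (high E U D).card * (D + 1) := by
    rw [mul_comm]
    exact Nat.mul_le_mul_right _ hcon.le
  omega

lemma low_pairs {R U D N : ℕ} (E : Fin R → Finset ℕ) (hU : ∀ x, E x ⊆ range U)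
    (hN : ∑ x, (E x).card ≤ N) :
    ∑ p : Fin R × Fin R, ((E p.1 ∩ E p.2) \ high E U D).card ≤ N * D := by
  have h1 : ∀ p : Fin R × Fin R, ((E p.1 ∩ E p.2) \ high E U D).card =
      ∑ u ∈ range U \ high E U D, (if u ∈ E p.1 then 1 else 0) * (if u ∈ E p.2 then 1 else 0) := by
    intro p
    have h2 : (E p.1 ∩ E p.2) \ high E U D =
        (range U \ high E U D).filter fun u => u ∈ E p.1 ∧ u ∈ E p.2 := by
      ext u
      simp only [mem_sdiff, mem_inter, mem_filter]
      constructor
      · rintro ⟨⟨e1, e2⟩, e3⟩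
        exact ⟨⟨hU _ e1, e3⟩, e1, e2⟩
      · rintro ⟨⟨e1, e2⟩, e3, e4⟩
        exact ⟨⟨e3, e4⟩, e2⟩
    rw [h2, card_filter]
    refine sum_congr rfl fun u _ => ?_
    by_cases e1 : u ∈ E p.1 <;> by_cases e2 : u ∈ E p.2 <;> simp [e1, e2]
  simp only [h1]
  rw [sum_comm]
  have h3 : ∀ u ∈ range U \ high E U D, ∑ p : Fin R × Fin R,
      (if u ∈ E p.1 then 1 else 0) * (if u ∈ E p.2 then 1 else 0) ≤ deg E u * D := by
    intro u hu
    rw [Fintype.sum_prod_type]
    have h4 : ∑ x : Fin R, ∑ y : Fin R, (if u ∈ E x then 1 else 0) * (if u ∈ E y then 1 else 0) =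
        (∑ x : Fin R, if u ∈ E x then 1 else 0) * (∑ y : Fin R, if u ∈ E y then 1 else 0) := by
      rw [sum_mul_sum]
    have h5 : (∑ x : Fin R, if u ∈ E x then 1 else 0) = deg E u := by
      unfold deg
      rw [card_filter]
    show ∑ x : Fin R, ∑ y : Fin R, (if u ∈ E x then 1 else 0) * (if u ∈ E y then 1 else 0) ≤ _
    rw [h4, h5]
    refine Nat.mul_le_mul_left _ ?_
    rw [mem_sdiff] at hu
    by_contra h6
    exact hu.2 (mem_filter.mpr ⟨hu.1, by omega⟩)
  calc _ ≤ ∑ u ∈ range U \ high E U D, deg E u * D := sum_le_sum h3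
    _ = (∑ u ∈ range U \ high E U D, deg E u) * D := by rw [sum_mul]
    _ ≤ (∑ u ∈ range U, deg E u) * D :=
        Nat.mul_le_mul_right _ (sum_le_sum_of_subset sdiff_subset)
    _ ≤ N * D := by
        rw [sum_deg E hU]
        exact Nat.mul_le_mul_right _ hN

/-- There are few large sets. -/
lemma extract {m N T K U : ℕ} (hT : 0 < T) (F : Fin m → Finset ℕ) (hU : ∀ i, F i ⊆ range U)
    (hN : ∑ i, (F i).card ≤ N) :
    ∃ (e : Fin m → Option (Fin (K * N / T))) (E : Fin (K * N / T) → Finset ℕ),
      (∀ i, e i = none → K * (F i).card < T) ∧ (∀ i x, e i = some x → E x = F i) ∧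
      ∑ x, (E x).card ≤ N ∧ ∀ x, E x ⊆ range U := by
  classical
  obtain ⟨A, hA⟩ : ∃ A : Finset (Fin m), A = univ.filter fun i => T ≤ K * (F i).card := ⟨_, rfl⟩
  have h1 : A.card ≤ K * N / T := by
    rw [Nat.le_div_iff_mul_le hT]
    calc A.card * T = ∑ _i ∈ A, T := by rw [sum_const, smul_eq_mul]
      _ ≤ ∑ i ∈ A, K * (F i).card := by
          refine sum_le_sum fun i hi => ?_
          rw [hA] at hi
          exact (mem_filter.mp hi).2
      _ ≤ ∑ i, K * (F i).card := sum_le_sum_of_subset (subset_univ _)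
      _ = K * ∑ i, (F i).card := by rw [mul_sum]
      _ ≤ K * N := Nat.mul_le_mul_left _ hN
  obtain ⟨φ⟩ : Nonempty ({i // i ∈ A} ↪ Fin (K * N / T)) := by
    apply Function.Embedding.nonempty_of_card_le
    rw [Fintype.card_coe, Fintype.card_fin]
    exact h1
  obtain ⟨e, he⟩ : ∃ e : Fin m → Option (Fin (K * N / T)),
      e = fun i => if h : i ∈ A then some (φ ⟨i, h⟩) else none := ⟨_, rfl⟩
  have he1 : ∀ i, e i = none → i ∉ A := by
    intro i hi h
    rw [he] at hi
    beta_reduce at hi
    rw [dif_pos h] at hi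
    exact absurd hi (by simp)
  have he2 : ∀ i j x, e i = some x → e j = some x → i = j := by
    intro i j x hi hj
    rw [he] at hi hj
    beta_reduce at hi hj
    by_cases h : i ∈ A
    · by_cases h' : j ∈ A
      · rw [dif_pos h] at hi
        rw [dif_pos h'] at hj
        have := φ.injective ((Option.some_injective _ hi).trans (Option.some_injective _ hj).symm)
        exact Subtype.ext_iff.mp this
      · rw [dif_neg h'] at hj
        exact absurd hj (by simp)
    · rw [dif_neg h] at hi
      exact absurd hi (by simp)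
  refine ⟨e, fun x => (univ.filter fun i => e i = some x).biUnion F, fun i hi => ?_,
    fun i x hi => ?_, ?_, fun x => ?_⟩
  · have h2 := he1 i hi
    rw [hA, mem_filter] at h2
    by_contra h3
    exact h2 ⟨mem_univ _, by omega⟩
  · beta_reduce
    have h2 : (univ.filter fun i => e i = some x) = {i} := by
      ext j
      rw [mem_filter, mem_singleton]
      exact ⟨fun h => he2 j i x h.2 hi, fun h => ⟨mem_univ _, by rw [h]; exact hi⟩⟩
    rw [h2, singleton_biUnion]
  · refine le_trans ?_ hN
    calc ∑ x, ((univ.filter fun i => e i = some x).biUnion F).card ≤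
        ∑ x, ∑ i ∈ univ.filter (fun i => e i = some x), (F i).card :=
          sum_le_sum fun x _ => card_biUnion_le
      _ = ∑ x, ∑ i, (if e i = some x then (F i).card else 0) := by
          refine sum_congr rfl fun x _ => ?_
          rw [sum_filter]
      _ = ∑ i, ∑ x, (if e i = some x then (F i).card else 0) := sum_comm
      _ ≤ ∑ i, (F i).card := by
          refine sum_le_sum fun i _ => ?_
          rcases he3 : e i with _ | y
          · simp
          · have : ∀ x, ((some y : Option (Fin (K * N / T))) = some x) = (y = x) := by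
              intro x
              simp
            simp only [this]
            rw [sum_ite_eq]
            simp
  · beta_reduce
    rw [biUnion_subset]
    exact fun i _ => hU i

/-- Numbers for the elements of a finite set. -/
lemma ranks (H : Finset ℕ) (w : ℕ) (hw : ∀ u ∈ H, u < 2 ^ w) : ∃ r nm : ℕ → ℕ,
    (∀ u ∈ H, r u < H.card) ∧ (∀ u ∈ H, nm (r u) = u) ∧ ∀ p, nm p < 2 ^ w := by
  classical
  refine ⟨fun u => if h : u ∈ H then (H.equivFin ⟨u, h⟩).1 else 0,
    fun p => if h : p < H.card then (H.equivFin.symm ⟨p, h⟩).1 else 0, fun u hu => ?_,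
    fun u hu => ?_, fun p => ?_⟩
  · beta_reduce
    rw [dif_pos hu]
    exact (H.equivFin ⟨u, hu⟩).2
  · beta_reduce
    rw [dif_pos hu, dif_pos (H.equivFin ⟨u, hu⟩).2]
    simp
  · beta_reduce
    split_ifs with h
    · exact hw _ (H.equivFin.symm ⟨p, h⟩).2
    · exact Nat.pow_pos (by norm_num)

end Pool.Agent.Q329.HC
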