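import Mathlib

/-! Data structures for SetIntersection in the cell-probe model (helper329): definitions. -/

set_option autoImplicit false

namespace Pool.Agent.Q329.HC

/-- An adaptive query algorithm for a memory with the addresses `C` and the words `Word`: it stops with
an output, or it probes a cell and continues in a way that depends on the content of the cell. -/
inductive Alg (C Word Out : Type) : Type
  | out (r : Out)
  | probe (i : C) (next : Word → Alg C Word Out)

namespace Alg

variable {C Word Out : Type}

/-- the output for the memory `mem` -/
def run (mem : C → Word) : Alg C Word Out → Out
  | out r => r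
  | probe i next => (next (mem i)).run mem

/-- the number of probed cells for the memory `mem` -/
def cost (mem : C → Word) : Alg C Word Out → ℕ
  | out _ => 0
  | probe i next => (next (mem i)).cost mem + 1

end Alg

/-- There is a cell-probe data structure with `s` cells of `w` bits for SetIntersection for families of
`m` subsets of `{0, …, U - 1}` of total size at most `N`: the memory `mem F` depends on the family `F`, the
query algorithm `alg i j` on the indices `i` and `j` only; it outputs the intersection of the sets `F i` and
`F j` and probes at most `a + b * op` cells, `op` being the size of the intersection. -/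
def HasStructure (m U N s w a b : ℕ) : Prop :=
  ∃ (mem : (Fin m → Finset ℕ) → Fin s → Fin (2 ^ w))
    (alg : Fin m → Fin m → Alg (Fin s) (Fin (2 ^ w)) (Finset ℕ)),
    ∀ F : Fin m → Finset ℕ, (∀ i, F i ⊆ Finset.range U) → ∑ i, (F i).card ≤ N → ∀ i j,
      (alg i j).run (mem F) = F i ∩ F j ∧
      (alg i j).cost (mem F) ≤ a + b * (F i ∩ F j).card

end Pool.Agent.Q329.HC
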