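import Pool.Agent.Q329.HC.Comb

/-! The reduction to dense families (helper329). -/

set_option autoImplicit false
set_option linter.unusedVariables false

open Finset

namespace Pool.Agent.Q329.HC

open Alg

/-- the addresses -/
abbrev Adr (m N R B V s : ℕ) : Type :=
  (Fin m × Fin 3) ⊕ (Fin (N + 1) ⊕ (((Fin R × Fin R) × Fin 2) ⊕ (Fin (B + 1) ⊕
    (Fin (V + 1) ⊕ Fin s))))

section

variable {m N R B V s w : ℕ}

/-- a number as a word -/
def enc (w x : ℕ) : Fin (2 ^ w) := ⟨x % 2 ^ w, Nat.mod_lt _ (Nat.pow_pos (by norm_num))⟩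

lemma enc_val {x : ℕ} (h : x < 2 ^ w) : (enc w x).1 = x := Nat.mod_eq_of_lt h

/-- address -/
def aInfo (i : Fin m) (k : Fin 3) : Adr m N R B V s := Sum.inl (i, k)
/-- address -/
def aElem (p : ℕ) : Adr m N R B V s := Sum.inr (Sum.inl (Fin.ofNat (N + 1) p))
/-- address -/
def aPtr (x y : Fin R) (k : Fin 2) : Adr m N R B V s := Sum.inr (Sum.inr (Sum.inl ((x, y), k)))
/-- address -/
def aLow (p : ℕ) : Adr m N R B V s := Sum.inr (Sum.inr (Sum.inr (Sum.inl (Fin.ofNat (B + 1) p))))
/-- address -/
def aName (p : ℕ) : Adr m N R B V s :=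
  Sum.inr (Sum.inr (Sum.inr (Sum.inr (Sum.inl (Fin.ofNat (V + 1) p)))))
/-- address -/
def aCore (q : Fin s) : Adr m N R B V s := Sum.inr (Sum.inr (Sum.inr (Sum.inr (Sum.inr q))))

/-- the memory -/
def cell (fi : Fin m → Fin 3 → ℕ) (fe : ℕ → ℕ) (fp : Fin R → Fin R → Fin 2 → ℕ) (fl fn : ℕ → ℕ)
    (fc : Fin s → Fin (2 ^ w)) : Adr m N R B V s → Fin (2 ^ w)
  | Sum.inl (i, k) => enc w (fi i k)
  | Sum.inr (Sum.inl p) => enc w (fe p.1)
  | Sum.inr (Sum.inr (Sum.inl ((x, y), k))) => enc w (fp x y k)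
  | Sum.inr (Sum.inr (Sum.inr (Sum.inl p))) => enc w (fl p.1)
  | Sum.inr (Sum.inr (Sum.inr (Sum.inr (Sum.inl p)))) => enc w (fn p.1)
  | Sum.inr (Sum.inr (Sum.inr (Sum.inr (Sum.inr q)))) => fc q

/-- the query algorithm if one of the sets is small -/
def tiny (p c q d f : ℕ) : Alg (Adr m N R B V s) (Fin (2 ^ w)) (Finset ℕ) :=
  (readL ((List.range c).map fun k => (aElem (p + k) : Adr m N R B V s))).bind fun l =>
    filt (fun x => bs (fun k => (aElem (q + k) : Adr m N R B V s)) x f 0 d)
      (l.map fun v => v.1)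

/-- the query algorithm for two large sets -/
noncomputable def big (algc : Fin R → Fin R → Alg (Fin s) (Fin (2 ^ w)) (Finset ℕ)) (x y : ℕ) :
    Alg (Adr m N R B V s) (Fin (2 ^ w)) (Finset ℕ) :=
  if h : x < R ∧ y < R then
    probe (aPtr ⟨x, h.1⟩ ⟨y, h.2⟩ 0) fun p => probe (aPtr ⟨x, h.1⟩ ⟨y, h.2⟩ 1) fun c =>
      (readL ((List.range c.1).map fun k => (aLow (p.1 + k) : Adr m N R B V s))).bind fun l =>
        ((algc ⟨x, h.1⟩ ⟨y, h.2⟩).mapC aCore).bind fun S =>
          (readL (S.toList.map fun k => (aName k : Adr m N R B V s))).bind fun l' =>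
            out ((l.map fun v => v.1).toFinset ∪ (l'.map fun v => v.1).toFinset)
  else out ∅

/-- the query algorithm -/
noncomputable def alg (algc : Fin R → Fin R → Alg (Fin s) (Fin (2 ^ w)) (Finset ℕ)) (f : ℕ)
    (i j : Fin m) : Alg (Adr m N R B V s) (Fin (2 ^ w)) (Finset ℕ) :=
  probe (aInfo i 0) fun a0 => probe (aInfo i 1) fun a1 => probe (aInfo i 2) fun a2 =>
  probe (aInfo j 0) fun b0 => probe (aInfo j 1) fun b1 => probe (aInfo j 2) fun b2 =>
    if a2.1 = 0 then tiny a0.1 a1.1 b0.1 b1.1 f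
    else if b2.1 = 0 then tiny b0.1 b1.1 a0.1 a1.1 f
    else big algc (a2.1 - 1) (b2.1 - 1)

variable {fi : Fin m → Fin 3 → ℕ} {fe : ℕ → ℕ} {fp : Fin R → Fin R → Fin 2 → ℕ} {fl fn : ℕ → ℕ}
  {fc : Fin s → Fin (2 ^ w)}

lemma read_elem (p : ℕ) (L : List ℕ)
    (hL : (List.range L.length).map (fun k => fe (p + k)) = L) (hp : p + L.length ≤ N)
    (hb : ∀ x ∈ L, x < 2 ^ w) :
    ((List.range L.length).map fun k =>
      (cell (B := B) (V := V) fi fe fp fl fn fc (aElem (N := N) (p + k))).1) = L :=
  block fe p N L hL hp hb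

lemma read_low (p : ℕ) (L : List ℕ)
    (hL : (List.range L.length).map (fun k => fl (p + k)) = L) (hp : p + L.length ≤ B)
    (hb : ∀ x ∈ L, x < 2 ^ w) :
    ((List.range L.length).map fun k =>
      (cell (N := N) (V := V) fi fe fp fl fn fc (aLow (B := B) (p + k))).1) = L :=
  block fl p B L hL hp hb

lemma tiny_spec (p q f : ℕ) (L L' : List ℕ)
    (hL : (List.range L.length).map (fun k => fe (p + k)) = L) (hp : p + L.length ≤ N)
    (hb : ∀ x ∈ L, x < 2 ^ w)
    (hL' : (List.range L'.length).map (fun k => fe (q + k)) = L') (hq : q + L'.length ≤ N)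
    (hb' : ∀ x ∈ L', x < 2 ^ w) (hs : L'.Pairwise (· < ·)) (hf : L'.length < 2 ^ f) :
    (tiny p L.length q L'.length f).run
        (cell (N := N) (B := B) (V := V) fi fe fp fl fn fc) =
      L.toFinset.filter (fun x => x ∈ L') ∧
    (tiny p L.length q L'.length f).cost
        (cell (N := N) (B := B) (V := V) fi fe fp fl fn fc) ≤ L.length * (f + 1) := by
  obtain ⟨M, hM⟩ : ∃ M, M = cell (N := N) (B := B) (V := V) fi fe fp fl fn fc := ⟨_, rfl⟩
  have hread : (((List.range L.length).map fun k =>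
      (aElem (p + k) : Adr m N R B V s)).map M).map (fun v => v.1) = L := by
    rw [List.map_map, List.map_map, hM]
    exact read_elem p L hL hp hb
  have hread' := read_elem (B := B) (V := V) (fi := fi) (fp := fp) (fl := fl) (fn := fn)
    (fc := fc) q L' hL' hq hb'
  have hval : ∀ r (hr : r < L'.length), (M (aElem (q + r))).1 = L'[r] := by
    intro r hr
    have h1 : (((List.range L'.length).map fun k =>
      (cell (B := B) (V := V) fi fe fp fl fn fc (aElem (N := N) (q + k))).1))[r]'(by
        rw [List.length_map, List.length_range]; exact hr) = L'[r] := by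
      simp only [hread']
    rw [← h1, hM]
    simp
  rw [← hM]
  unfold tiny
  constructor
  · rw [run_bind, run_readL, run_filt, hread]
    apply filter_congr
    intro x _
    rw [run_bs]
    · constructor
      · rintro ⟨r, -, h2, h3⟩
        rw [hval r h2] at h3
        exact List.mem_iff_getElem.mpr ⟨r, h2, h3⟩
      · intro h
        obtain ⟨r, h2, h3⟩ := List.mem_iff_getElem.mp h
        exact ⟨r, Nat.zero_le _, h2, by rw [hval r h2]; exact h3⟩
    · rw [Nat.sub_zero]
      exact hf
    · intro r t _ h2 h3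
      rw [hval r (by omega), hval t h3]
      exact List.pairwise_iff_getElem.mp hs r t (by omega) h3 h2
  · rw [cost_bind, cost_readL, run_readL, hread, List.length_map, List.length_range]
    have h1 := cost_filt M (fun x => bs (fun k => (aElem (q + k) : Adr m N R B V s)) x f 0
      L'.length) f (fun x => cost_bs M _ x f 0 _) L
    rw [Nat.mul_succ]
    omega

lemma big_spec (algc : Fin R → Fin R → Alg (Fin s) (Fin (2 ^ w)) (Finset ℕ)) (x y : Fin R)
    (L : List ℕ)
    (hL : (List.range L.length).map (fun k => fl (fp x y 0 + k)) = L)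
    (hp : fp x y 0 + L.length ≤ B) (hp0 : fp x y 0 < 2 ^ w) (hp1 : fp x y 1 = L.length)
    (hp2 : L.length < 2 ^ w) (hb : ∀ u ∈ L, u < 2 ^ w)
    (hV : ∀ p ∈ (algc x y).run fc, p ≤ V) (hfn : ∀ p, fn p < 2 ^ w) :
    (big algc x.1 y.1).run (cell (N := N) (B := B) (V := V) fi fe fp fl fn fc) =
      L.toFinset ∪ ((algc x y).run fc).image fn ∧
    (big algc x.1 y.1).cost (cell (N := N) (B := B) (V := V) fi fe fp fl fn fc) =
      2 + L.length + (algc x y).cost fc + ((algc x y).run fc).card := by
  obtain ⟨M, hM⟩ : ∃ M, M = cell (N := N) (B := B) (V := V) fi fe fp fl fn fc := ⟨_, rfl⟩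
  have h0 : (M (aPtr x y 0)).1 = fp x y 0 := by
    rw [hM]
    exact enc_val hp0
  have h1 : (M (aPtr x y 1)).1 = L.length := by
    rw [hM]
    show (enc w (fp x y 1)).1 = _
    rw [enc_val (by rw [hp1]; exact hp2), hp1]
  have hread : (((List.range L.length).map fun k =>
      (aLow (fp x y 0 + k) : Adr m N R B V s)).map M).map (fun v => v.1) = L := by
    rw [List.map_map, List.map_map, hM]
    exact read_low (fp x y 0) L hL hp hb
  have hcore : (fun i => M (aCore i)) = fc := by
    rw [hM]
    rfl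
  have hnames : ((((algc x y).run fc).toList.map fun k =>
      (aName k : Adr m N R B V s)).map M).map (fun v => v.1) =
      ((algc x y).run fc).toList.map fn := by
    rw [List.map_map, List.map_map]
    apply List.map_congr_left
    intro k hk
    have hk' := hV k (mem_toList.mp hk)
    rw [hM]
    show (enc w (fn (k % (V + 1)))).1 = fn k
    rw [Nat.mod_eq_of_lt (by omega : k < V + 1), enc_val (hfn k)]
  have hlt : x.1 < R ∧ y.1 < R := ⟨x.2, y.2⟩
  rw [← hM]
  unfold big
  rw [dif_pos hlt]
  constructor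
  · show ((readL ((List.range (M (aPtr x y 1)).1).map fun k =>
      (aLow ((M (aPtr x y 0)).1 + k) : Adr m N R B V s))).bind _).run M = _
    rw [run_bind, run_readL, h0, h1]
    beta_reduce
    rw [hread, run_bind, run_mapC, hcore]
    beta_reduce
    rw [run_bind, run_readL]
    show L.toFinset ∪ ((((((algc x y).run fc).toList.map fun k =>
      (aName k : Adr m N R B V s)).map M).map fun v => v.1)).toFinset = _
    rw [hnames]
    congr 1
    ext u
    simp
  · show ((readL ((List.range (M (aPtr x y 1)).1).map fun k =>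
      (aLow ((M (aPtr x y 0)).1 + k) : Adr m N R B V s))).bind _).cost M + 1 + 1 = _
    rw [cost_bind, cost_readL, run_readL, h0, h1, List.length_map, List.length_range]
    beta_reduce
    rw [cost_bind, cost_mapC, run_mapC, hcore]
    beta_reduce
    rw [cost_bind, cost_readL, List.length_map, length_toList]
    show L.length + ((algc x y).cost fc + (((algc x y).run fc).card + 0)) + 1 + 1 = _
    omega

end

end Pool.Agent.Q329.HC
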