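import Pool.Agent.Q329.HC.Main

/-! The reduction to dense families and the space bound (helper329). -/

set_option autoImplicit false
set_option linter.unusedVariables false

open Finset

namespace Pool.Agent.Q329.HC

open Alg

/-- The structure for one family. -/
lemma per_family {m U N s w a b T K : ℕ} (hT : 0 < T) (hK : Nat.log 2 N + 2 ≤ K) (hKT : K ≤ T)
    (hw : N ^ 2 < 2 ^ w) (hUw : U ≤ 2 ^ w) (hN1 : 1 ≤ N)
    (memc : (Fin (K * N / T) → Finset ℕ) → Fin s → Fin (2 ^ w))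
    (algc : Fin (K * N / T) → Fin (K * N / T) → Alg (Fin s) (Fin (2 ^ w)) (Finset ℕ))
    (hc : ∀ G : Fin (K * N / T) → Finset ℕ, (∀ x, G x ⊆ range (T * K)) → ∑ x, (G x).card ≤ N →
      ∀ x y, (algc x y).run (memc G) = G x ∩ G y ∧
        (algc x y).cost (memc G) ≤ a + b * (G x ∩ G y).card)
    (F : Fin m → Finset ℕ) (hU : ∀ i, F i ⊆ range U) (hN : ∑ i, (F i).card ≤ N) :
    ∃ M : Adr m N (K * N / T) (N * (N / (T * K))) (T * K) s → Fin (2 ^ w), ∀ i j,
      (alg algc (Nat.log 2 N + 1) i j).run M = F i ∩ F j ∧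
      (alg algc (Nat.log 2 N + 1) i j).cost M ≤ a + T + 8 + (b + 1) * (F i ∩ F j).card := by
  classical
  have hTK : 0 < T * K := Nat.mul_pos hT (by omega)
  obtain ⟨e, E, he1, he2, hE1, hE2⟩ := extract (K := K) hT F hU hN
  obtain ⟨D, hD⟩ : ∃ D, D = N / (T * K) := ⟨_, rfl⟩
  obtain ⟨H, hH⟩ : ∃ H, H = high E U D := ⟨_, rfl⟩
  have hHV : H.card ≤ T * K := by
    rw [hH]
    refine card_high E hE2 hE1 ?_
    rw [hD, mul_comm]
    exact Nat.lt_mul_div_succ N hTK
  have hHw : ∀ u ∈ H, u < 2 ^ w := by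
    intro u hu
    rw [hH, high, mem_filter, mem_range] at hu
    omega
  have hNN : N ≤ N ^ 2 := by
    rw [sq]
    exact Nat.le_mul_of_pos_right _ hN1
  have hBN : N * D ≤ N ^ 2 := by
    rw [sq, hD]
    exact Nat.mul_le_mul_left _ (Nat.div_le_self _ _)
  have hRN : K * N / T ≤ N := by
    calc K * N / T ≤ T * N / T := Nat.div_le_div_right (Nat.mul_le_mul_right _ hKT)
      _ = N := Nat.mul_div_cancel_left _ hT
  obtain ⟨r, nm, hr1, hr2, hnm⟩ := ranks H w hHw
  obtain ⟨G, hG⟩ : ∃ G : Fin (K * N / T) → Finset ℕ, G = fun x => (E x ∩ H).image r := ⟨_, rfl⟩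
  have hrinj : Set.InjOn r (H : Set ℕ) := by
    intro u hu v hv huv
    rw [← hr2 u hu, ← hr2 v hv, huv]
  have hG1 : ∀ x, G x ⊆ range (T * K) := by
    intro x p hp
    rw [hG] at hp
    obtain ⟨u, hu, rfl⟩ := mem_image.mp hp
    rw [mem_range]
    exact lt_of_lt_of_le (hr1 u (mem_inter.mp hu).2) hHV
  have hG2 : ∑ x, (G x).card ≤ N := by
    refine le_trans (sum_le_sum fun x _ => ?_) hE1
    rw [hG]
    exact card_image_le.trans (card_le_card inter_subset_left)
  have hcore := hc G hG1 hG2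
  have hGG : ∀ x y, G x ∩ G y = ((E x ∩ E y) ∩ H).image r := by
    intro x y
    rw [hG]
    ext p
    simp only [mem_inter, mem_image]
    constructor
    · rintro ⟨⟨u, ⟨h1, h2⟩, rfl⟩, ⟨v, ⟨h3, h4⟩, h5⟩⟩
      have h6 : v = u := hrinj h4 h2 h5
      rw [h6] at h3
      exact ⟨u, ⟨⟨h1, h3⟩, h2⟩, rfl⟩
    · rintro ⟨u, ⟨⟨h1, h3⟩, h2⟩, rfl⟩
      exact ⟨⟨u, ⟨h1, h2⟩, rfl⟩, ⟨u, ⟨h3, h2⟩, rfl⟩⟩
  have hGc : ∀ x y, (G x ∩ G y).card = ((E x ∩ E y) ∩ H).card := by
    intro x y
    rw [hGG]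
    exact card_image_of_injOn (hrinj.mono (by
      intro u hu
      exact (mem_inter.mp (mem_coe.mp hu)).2))
  have hGn : ∀ x y, (G x ∩ G y).image nm = (E x ∩ E y) ∩ H := by
    intro x y
    rw [hGG, image_image]
    ext u
    rw [mem_image]
    constructor
    · rintro ⟨v, hv, rfl⟩
      show nm (r v) ∈ _
      rw [hr2 v (mem_inter.mp hv).2]
      exact hv
    · intro hu
      exact ⟨u, hu, hr2 u (mem_inter.mp hu).2⟩
  obtain ⟨arr1, st1, hp1⟩ := packing (fun i : Fin m => (F i).sort (· ≤ ·)) univ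
  obtain ⟨arr2, st2, hp2⟩ := packing
    (fun p : Fin (K * N / T) × Fin (K * N / T) => ((E p.1 ∩ E p.2) \ H).toList) univ
  have hs1 : ∑ i, ((F i).sort (· ≤ ·)).length ≤ N := by
    simp only [length_sort]
    exact hN
  have hs2 : ∑ p : Fin (K * N / T) × Fin (K * N / T), ((E p.1 ∩ E p.2) \ H).toList.length ≤
      N * D := by
    simp only [length_toList]
    rw [hH]
    exact low_pairs E hE2 hE1
  obtain ⟨fi, hfi⟩ : ∃ fi : Fin m → Fin 3 → ℕ, fi = fun i =>
      ![st1 i, (F i).card, (e i).elim 0 fun x => x.1 + 1] := ⟨_, rfl⟩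
  obtain ⟨fp, hfp⟩ : ∃ fp : Fin (K * N / T) → Fin (K * N / T) → Fin 2 → ℕ, fp = fun x y =>
      ![st2 (x, y), ((E x ∩ E y) \ H).card] := ⟨_, rfl⟩
  obtain ⟨M, hM⟩ : ∃ M : Adr m N (K * N / T) (N * D) (T * K) s → Fin (2 ^ w),
      M = cell fi arr1 fp arr2 nm (memc G) := ⟨_, rfl⟩
  rw [← hD]
  refine ⟨M, fun i j => ?_⟩
  -- the contents
  have hl1 : ∀ i, st1 i + (F i).card ≤ N := by
    intro i
    have := (hp1 i (mem_univ _)).1
    beta_reduce at this
    rw [length_sort] at this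
    omega
  have hv0 : ∀ i, (M (aInfo i 0)).1 = st1 i := by
    intro i
    rw [hM]
    show (enc w (fi i 0)).1 = _
    rw [hfi]
    exact enc_val (by have := hl1 i; show st1 i < 2 ^ w; omega)
  have hv1 : ∀ i, (M (aInfo i 1)).1 = (F i).card := by
    intro i
    rw [hM]
    show (enc w (fi i 1)).1 = _
    rw [hfi]
    exact enc_val (by have := hl1 i; show (F i).card < 2 ^ w; omega)
  have hv2 : ∀ i, (M (aInfo i 2)).1 = (e i).elim 0 fun x => x.1 + 1 := by
    intro i
    rw [hM]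
    show (enc w (fi i 2)).1 = _
    rw [hfi]
    refine enc_val ?_
    show ((e i).elim 0 fun x => x.1 + 1) < 2 ^ w
    rcases e i with _ | x
    · exact Nat.pow_pos (by norm_num)
    · show x.1 + 1 < 2 ^ w
      have := x.2
      omega
  have hFw : ∀ i, ∀ x ∈ (F i).sort (· ≤ ·), x < 2 ^ w := by
    intro i x hx
    have := hU i ((mem_sort _).mp hx)
    rw [mem_range] at this
    omega
  have hlen : ∀ i, ((F i).sort (· ≤ ·)).length = (F i).card := fun i => length_sort _
  have hNf : N < 2 ^ (Nat.log 2 N + 1) := Nat.lt_pow_succ_log_self (by norm_num) N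
  -- small sets
  have htiny : ∀ i j, K * (F i).card < T →
      (tiny (st1 i) (F i).card (st1 j) (F j).card (Nat.log 2 N + 1)).run M = F i ∩ F j ∧
      (tiny (st1 i) (F i).card (st1 j) (F j).card (Nat.log 2 N + 1)).cost M ≤ T := by
    intro i j hi
    have h1 := hp1 i (mem_univ _)
    have h2 := hp1 j (mem_univ _)
    have h3 := tiny_spec (fi := fi) (fp := fp) (fl := arr2) (fn := nm) (fc := memc G)
      (B := N * D) (V := T * K) (st1 i) (st1 j) (Nat.log 2 N + 1)
      ((F i).sort (· ≤ ·)) ((F j).sort (· ≤ ·)) h1.2 (h1.1.trans hs1) (hFw i) h2.2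
      (h2.1.trans hs1) (hFw j) (sortedLT_sort (F j)).pairwise (by
        rw [hlen]
        have := hl1 j
        omega)
    rw [hlen, hlen, ← hM] at h3
    refine ⟨?_, ?_⟩
    · rw [h3.1, sort_toFinset]
      ext u
      rw [mem_filter, mem_sort, mem_inter]
    · refine h3.2.trans ?_
      calc (F i).card * (Nat.log 2 N + 1 + 1) ≤ (F i).card * K := Nat.mul_le_mul_left _ (by omega)
        _ = K * (F i).card := mul_comm _ _
        _ ≤ T := hi.le
  have hrun : (alg algc (Nat.log 2 N + 1) i j).run M =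
      (if (M (aInfo i 2)).1 = 0 then
        tiny (M (aInfo i 0)).1 (M (aInfo i 1)).1 (M (aInfo j 0)).1 (M (aInfo j 1)).1
          (Nat.log 2 N + 1)
      else if (M (aInfo j 2)).1 = 0 then
        tiny (M (aInfo j 0)).1 (M (aInfo j 1)).1 (M (aInfo i 0)).1 (M (aInfo i 1)).1
          (Nat.log 2 N + 1)
      else big algc ((M (aInfo i 2)).1 - 1) ((M (aInfo j 2)).1 - 1)).run M := rfl
  have hcost : (alg algc (Nat.log 2 N + 1) i j).cost M =
      (if (M (aInfo i 2)).1 = 0 then
        tiny (M (aInfo i 0)).1 (M (aInfo i 1)).1 (M (aInfo j 0)).1 (M (aInfo j 1)).1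
          (Nat.log 2 N + 1)
      else if (M (aInfo j 2)).1 = 0 then
        tiny (M (aInfo j 0)).1 (M (aInfo j 1)).1 (M (aInfo i 0)).1 (M (aInfo i 1)).1
          (Nat.log 2 N + 1)
      else big algc ((M (aInfo i 2)).1 - 1) ((M (aInfo j 2)).1 - 1)).cost M + 6 := rfl
  rw [hrun, hcost]
  rw [hv0, hv0, hv1, hv1, hv2, hv2]
  rcases hei : e i with _ | x
  · rw [if_pos (show (Option.elim (none : Option (Fin (K * N / T))) 0 fun x => x.1 + 1) = 0
      from rfl)]
    obtain ⟨h1, h2⟩ := htiny i j (he1 i hei)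
    exact ⟨h1, by omega⟩
  · rw [if_neg (show ¬ (Option.elim (some x) 0 fun x : Fin (K * N / T) => x.1 + 1) = 0 from
      Nat.succ_ne_zero _)]
    rcases hej : e j with _ | y
    · rw [if_pos (show (Option.elim (none : Option (Fin (K * N / T))) 0 fun x => x.1 + 1) = 0
        from rfl)]
      obtain ⟨h1, h2⟩ := htiny j i (he1 j hej)
      rw [inter_comm (F i) (F j)]
      exact ⟨h1, by omega⟩
    · rw [if_neg (show ¬ (Option.elim (some y) 0 fun x : Fin (K * N / T) => x.1 + 1) = 0 from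
        Nat.succ_ne_zero _)]
      show (big algc (x.1 + 1 - 1) (y.1 + 1 - 1)).run M = F i ∩ F j ∧
        (big algc (x.1 + 1 - 1) (y.1 + 1 - 1)).cost M + 6 ≤ _
      rw [Nat.add_sub_cancel, Nat.add_sub_cancel]
      have h2 := hp2 (x, y) (mem_univ _)
      have hfp0 : fp x y 0 = st2 (x, y) := by rw [hfp]; rfl
      have hfp1 : fp x y 1 = ((E x ∩ E y) \ H).toList.length := by
        rw [hfp, length_toList]
        rfl
      have h2b := h2.1.trans hs2
      have h2c : ((E x ∩ E y) \ H).toList.length ≤ N * D := le_trans (Nat.le_add_left _ _) h2b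
      have h2d : st2 (x, y) ≤ N * D := le_trans (Nat.le_add_right _ _) h2b
      obtain ⟨h3, h4⟩ := big_spec (fi := fi) (fe := arr1) (fp := fp) (fl := arr2) (fn := nm)
        (fc := memc G) (N := N) (B := N * D) (V := T * K) (m := m) algc x y
        ((E x ∩ E y) \ H).toList (by rw [hfp0]; exact h2.2) (by rw [hfp0]; exact h2b)
        (by rw [hfp0]; omega) hfp1 (by omega) (by
          intro u hu
          have := hE2 x (mem_inter.mp (mem_sdiff.mp (mem_toList.mp hu)).1).1
          rw [mem_range] at this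
          omega) (by
          intro p hp
          rw [(hcore x y).1] at hp
          have := hG1 x (mem_inter.mp hp).1
          rw [mem_range] at this
          omega) hnm
      rw [← hM] at h3 h4
      have hFE : E x ∩ E y = F i ∩ F j := by rw [he2 i x hei, he2 j y hej]
      rw [h3, h4, (hcore x y).1, hGn, toList_toFinset, length_toList]
      constructor
      · rw [sdiff_union_inter, hFE]
      · have h5 := (hcore x y).2
        rw [hGc] at h5 ⊢
        have h6 : ((E x ∩ E y) \ H).card + ((E x ∩ E y) ∩ H).card = (F i ∩ F j).card := by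
          rw [← hFE, card_sdiff_add_card_inter]
        rw [← h6]
        have h7 : (b + 1) * (((E x ∩ E y) \ H).card + ((E x ∩ E y) ∩ H).card) =
            b * ((E x ∩ E y) ∩ H).card + b * ((E x ∩ E y) \ H).card +
              ((E x ∩ E y) \ H).card + ((E x ∩ E y) ∩ H).card := by ring
        rw [h7]
        omega

/-- The reduction to dense families. -/
theorem reduction {m U N s w a b T K : ℕ} (hT : 0 < T) (hK : Nat.log 2 N + 2 ≤ K) (hKT : K ≤ T)
    (hw : N ^ 2 < 2 ^ w) (hUw : U ≤ 2 ^ w) (hm : m ≤ N)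
    (h : HasStructure (K * N / T) (T * K) N s w a b) :
    HasStructure m U N (s + 4 * N + 2 * (K * N / T) ^ 2 + N * (N / (T * K)) + T * K + 3) w
      (a + T + 8) (b + 1) := by
  classical
  rcases Nat.eq_zero_or_pos N with h0 | hN1
  · refine ⟨fun _ _ => ⟨0, Nat.pow_pos (by norm_num)⟩, fun _ _ => Alg.out ∅, fun F _ _ i _ => ?_⟩
    have := i.2
    omega
  obtain ⟨memc, algc, hc⟩ := h
  obtain ⟨R, hR⟩ : ∃ R, R = K * N / T := ⟨_, rfl⟩
  obtain ⟨B, hB⟩ : ∃ B, B = N * (N / (T * K)) := ⟨_, rfl⟩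
  have hpf := fun (F : Fin m → Finset ℕ) (h1 : ∀ i, F i ⊆ range U)
    (h2 : ∑ i, (F i).card ≤ N) => per_family hT hK hKT hw hUw hN1 memc algc hc F h1 h2
  have hcard : Fintype.card (Adr m N (K * N / T) (N * (N / (T * K))) (T * K) s) ≤
      s + 4 * N + 2 * (K * N / T) ^ 2 + N * (N / (T * K)) + T * K + 3 := by
    simp only [Fintype.card_sum, Fintype.card_prod, Fintype.card_fin]
    rw [← hR, ← hB, sq]
    omega
  refine mono hcard ?_
  obtain ⟨φ⟩ : Nonempty (Adr m N (K * N / T) (N * (N / (T * K))) (T * K) s ≃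
      Fin (Fintype.card (Adr m N (K * N / T) (N * (N / (T * K))) (T * K) s))) :=
    ⟨Fintype.equivFin _⟩
  refine ⟨fun F => if hF : (∀ i, F i ⊆ range U) ∧ ∑ i, (F i).card ≤ N then
      fun x => (hpf F hF.1 hF.2).choose (φ.symm x) else
        fun _ => ⟨0, Nat.pow_pos (by norm_num)⟩,
    fun i j => (alg algc (Nat.log 2 N + 1) i j).mapC φ, fun F h1 h2 i j => ?_⟩
  beta_reduce
  rw [dif_pos ⟨h1, h2⟩, run_mapC, cost_mapC]
  have h3 : (fun x => (hpf F h1 h2).choose (φ.symm (φ x))) = (hpf F h1 h2).choose := by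
    funext x
    rw [Equiv.symm_apply_apply]
  rw [h3]
  exact (hpf F h1 h2).choose_spec i j

end Pool.Agent.Q329.HC
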