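import Pool.Agent.Q329.HC.Defs

/-! Tools for query algorithms (helper329). -/

set_option autoImplicit false
set_option linter.unusedVariables false

open Finset

namespace Pool.Agent.Q329.HC

namespace Alg

variable {C C' Word Out Out' : Type}

/-- change of the addresses -/
def mapC (f : C → C') : Alg C Word Out → Alg C' Word Out
  | out r => out r
  | probe i next => probe (f i) fun v => (next v).mapC f

lemma run_mapC (f : C → C') (mem : C' → Word) (P : Alg C Word Out) :
    (P.mapC f).run mem = P.run (fun i => mem (f i)) := by
  induction P with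
  | out r => rfl
  | probe i next ih => exact ih _

lemma cost_mapC (f : C → C') (mem : C' → Word) (P : Alg C Word Out) :
    (P.mapC f).cost mem = P.cost (fun i => mem (f i)) := by
  induction P with
  | out r => rfl
  | probe i next ih => exact congrArg (· + 1) (ih _)

/-- sequential composition -/
def bind : Alg C Word Out → (Out → Alg C Word Out') → Alg C Word Out'
  | out r, g => g r
  | probe i next, g => probe i fun v => (next v).bind g

lemma run_bind (mem : C → Word) (g : Out → Alg C Word Out') (P : Alg C Word Out) :
    (P.bind g).run mem = (g (P.run mem)).run mem := by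
  induction P with
  | out r => rfl
  | probe i next ih => exact ih _

lemma cost_bind (mem : C → Word) (g : Out → Alg C Word Out') (P : Alg C Word Out) :
    (P.bind g).cost mem = P.cost mem + (g (P.run mem)).cost mem := by
  induction P with
  | out r => exact (Nat.zero_add _).symm
  | probe i next ih =>
    show ((next (mem i)).bind g).cost mem + 1 = ((next (mem i)).cost mem + 1) +
      (g ((next (mem i)).run mem)).cost mem
    rw [ih]
    omega

/-- read the cells of a list -/
def readL : List C → Alg C Word (List Word)
  | [] => out []
  | x :: L => probe x fun v => (readL L).bind fun l => out (v :: l)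

lemma run_readL (mem : C → Word) (L : List C) : (readL L).run mem = L.map mem := by
  induction L with
  | nil => rfl
  | cons x L ih =>
    show ((readL L).bind fun l => out (mem x :: l)).run mem = _
    rw [run_bind, ih]
    rfl

lemma cost_readL (mem : C → Word) (L : List C) : (readL L).cost mem = L.length := by
  induction L with
  | nil => rfl
  | cons x L ih =>
    show ((readL L).bind fun l => out (mem x :: l)).cost mem + 1 = _
    rw [cost_bind, ih]
    rfl

/-- keep the elements which pass a test -/
def filt (test : ℕ → Alg C Word Bool) : List ℕ → Alg C Word (Finset ℕ)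
  | [] => out ∅
  | x :: L => (test x).bind fun b => (filt test L).bind fun S =>
      out (if b = true then insert x S else S)

lemma run_filt (mem : C → Word) (test : ℕ → Alg C Word Bool) (L : List ℕ) :
    (filt test L).run mem = L.toFinset.filter fun x => (test x).run mem = true := by
  induction L with
  | nil => rfl
  | cons x L ih =>
    unfold filt
    rw [run_bind, run_bind, ih]
    show (if (test x).run mem = true then _ else _) = _
    rw [List.toFinset_cons, filter_insert]

lemma cost_filt (mem : C → Word) (test : ℕ → Alg C Word Bool) (c : ℕ)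
    (h : ∀ x, (test x).cost mem ≤ c) (L : List ℕ) : (filt test L).cost mem ≤ L.length * c := by
  induction L with
  | nil => exact Nat.zero_le _
  | cons x L ih =>
    unfold filt
    rw [cost_bind, cost_bind, List.length_cons, Nat.succ_mul]
    have h1 := h x
    show (test x).cost mem + ((filt test L).cost mem + 0) ≤ _
    omega

/-- binary search for `x` among the cells `addr lo`, …, `addr (hi - 1)` -/
def bs {w : ℕ} (addr : ℕ → C) (x : ℕ) : ℕ → ℕ → ℕ → Alg C (Fin (2 ^ w)) Bool
  | 0, _, _ => out false
  | f + 1, lo, hi => if hi ≤ lo then out false else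
      probe (addr ((lo + hi) / 2)) fun v =>
        if v.1 = x then out true else
          if v.1 < x then bs addr x f ((lo + hi) / 2 + 1) hi else bs addr x f lo ((lo + hi) / 2)

lemma cost_bs {w : ℕ} (mem : C → Fin (2 ^ w)) (addr : ℕ → C) (x : ℕ) : ∀ f lo hi : ℕ,
    (bs addr x f lo hi).cost mem ≤ f := by
  intro f
  induction f with
  | zero => intro lo hi; exact Nat.zero_le _
  | succ f ih =>
    intro lo hi
    unfold bs
    split_ifs with h
    · exact Nat.zero_le _
    · show (if (mem (addr ((lo + hi) / 2))).1 = x then (out true : Alg C (Fin (2 ^ w)) Bool) else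
          if (mem (addr ((lo + hi) / 2))).1 < x then bs addr x f ((lo + hi) / 2 + 1) hi else
            bs addr x f lo ((lo + hi) / 2)).cost mem + 1 ≤ f + 1
      split_ifs with h1 h2
      · exact Nat.succ_le_succ (Nat.zero_le _)
      · exact Nat.succ_le_succ (ih _ _)
      · exact Nat.succ_le_succ (ih _ _)

lemma run_bs {w : ℕ} (mem : C → Fin (2 ^ w)) (addr : ℕ → C) (x : ℕ) : ∀ f lo hi : ℕ,
    hi - lo < 2 ^ f →
    (∀ r s, lo ≤ r → r < s → s < hi → (mem (addr r)).1 < (mem (addr s)).1) →
    ((bs addr x f lo hi).run mem = true ↔ ∃ r, lo ≤ r ∧ r < hi ∧ (mem (addr r)).1 = x) := by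
  intro f
  induction f with
  | zero =>
    intro lo hi h1 _
    rw [pow_zero] at h1
    constructor
    · intro h
      exact absurd h (by simp [bs, run])
    · rintro ⟨r, h2, h3, -⟩
      omega
  | succ f ih =>
    intro lo hi h1 hs
    unfold bs
    split_ifs with h
    · constructor
      · intro h2
        exact absurd h2 (by simp [run])
      · rintro ⟨r, h2, h3, -⟩
        omega
    · obtain ⟨mid, hmid⟩ : ∃ mid, mid = (lo + hi) / 2 := ⟨_, rfl⟩
      show (if (mem (addr ((lo + hi) / 2))).1 = x then (out true : Alg C (Fin (2 ^ w)) Bool) else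
          if (mem (addr ((lo + hi) / 2))).1 < x then bs addr x f ((lo + hi) / 2 + 1) hi else
            bs addr x f lo ((lo + hi) / 2)).run mem = true ↔ _
      rw [← hmid]
      have hm1 : lo ≤ mid := by omega
      have hm2 : mid < hi := by omega
      rw [pow_succ] at h1
      split_ifs with h2 h3
      · constructor
        · intro _
          exact ⟨mid, hm1, hm2, h2⟩
        · intro _
          rfl
      · rw [ih _ _ (by omega) (fun r s h4 h5 h6 => hs r s (by omega) h5 h6)]
        constructor
        · rintro ⟨r, h4, h5, h6⟩
          exact ⟨r, by omega, h5, h6⟩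
        · rintro ⟨r, h4, h5, h6⟩
          refine ⟨r, ?_, h5, h6⟩
          by_contra h7
          rcases Nat.lt_or_ge r mid with h8 | h8
          · have := hs r mid h4 h8 hm2
            omega
          · have h9 : r = mid := by omega
            rw [h9] at h6
            exact h2 h6
      · rw [ih _ _ (by omega) (fun r s h4 h5 h6 => hs r s h4 h5 (by omega))]
        constructor
        · rintro ⟨r, h4, h5, h6⟩
          exact ⟨r, h4, by omega, h6⟩
        · rintro ⟨r, h4, h5, h6⟩
          refine ⟨r, h4, ?_, h6⟩
          by_contra h7
          rcases Nat.lt_or_ge mid r with h8 | h8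
          · have := hs mid r hm1 h8 h5
            omega
          · have h9 : r = mid := by omega
            rw [h9] at h6
            exact h2 h6

end Alg

/-- Lists can be stored one after the other. -/
lemma packing {I : Type} [DecidableEq I] (c : I → List ℕ) (J : Finset I) :
    ∃ (arr : ℕ → ℕ) (start : I → ℕ), ∀ i ∈ J,
      start i + (c i).length ≤ ∑ i ∈ J, (c i).length ∧
      (List.range (c i).length).map (fun k => arr (start i + k)) = c i := by
  induction J using Finset.induction_on with
  | empty => exact ⟨fun _ => 0, fun _ => 0, fun i hi => absurd hi (notMem_empty _)⟩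
  | insert i J hi ih =>
    obtain ⟨arr, start, h⟩ := ih
    refine ⟨fun p => if p < ∑ i ∈ J, (c i).length then arr p else
        (c i).getD (p - ∑ i ∈ J, (c i).length) 0,
      Function.update start i (∑ i ∈ J, (c i).length), fun j hj => ?_⟩
    rw [sum_insert hi]
    rcases eq_or_ne j i with rfl | hne
    · rw [Function.update_self]
      refine ⟨by omega, ?_⟩
      apply List.ext_getElem
      · simp
      · intro k h1 h2
        simp only [List.getElem_map, List.getElem_range]
        rw [if_neg (by omega), Nat.add_sub_cancel_left]
        exact List.getD_eq_getElem _ _ h2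
    · rw [Function.update_of_ne hne]
      have hj' : j ∈ J := (mem_insert.mp hj).resolve_left hne
      obtain ⟨h1, h2⟩ := h j hj'
      refine ⟨by omega, ?_⟩
      conv_rhs => rw [← h2]
      apply List.map_congr_left
      intro k hk
      rw [List.mem_range] at hk
      beta_reduce
      rw [if_pos (by omega)]

/-- Reading a stored list. -/
lemma block {w : ℕ} (arr : ℕ → ℕ) (p M : ℕ) (L : List ℕ)
    (hL : (List.range L.length).map (fun k => arr (p + k)) = L) (hp : p + L.length ≤ M)
    (hb : ∀ x ∈ L, x < 2 ^ w) :
    (List.range L.length).map (fun k => arr ((p + k) % (M + 1)) % 2 ^ w) = L := by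
  conv_rhs => rw [← hL]
  apply List.map_congr_left
  intro k hk
  have hk' := List.mem_range.mp hk
  rw [Nat.mod_eq_of_lt (by omega : p + k < M + 1)]
  refine Nat.mod_eq_of_lt (hb _ ?_)
  rw [← hL]
  exact List.mem_map.mpr ⟨k, hk, rfl⟩

/-- More cells. -/
theorem mono {m U N s w a b s' : ℕ} (hs : s ≤ s') (h : HasStructure m U N s w a b) :
    HasStructure m U N s' w a b := by
  obtain ⟨mem, alg, h1⟩ := h
  refine ⟨fun F x => if hx : x.1 < s then mem F ⟨x.1, hx⟩ else ⟨0, Nat.pow_pos (by norm_num)⟩,
    fun i j => (alg i j).mapC (Fin.castLE hs), fun F h2 h3 i j => ?_⟩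
  have h4 : (fun i : Fin s => (if hx : (Fin.castLE hs i).1 < s then
      mem F ⟨(Fin.castLE hs i).1, hx⟩ else ⟨0, Nat.pow_pos (by norm_num)⟩ : Fin (2 ^ w))) =
      mem F := by
    funext i
    have h4 : (Fin.castLE hs i).1 < s := i.2
    rw [dif_pos h4]
    rfl
  rw [Alg.run_mapC, Alg.cost_mapC, h4]
  exact h1 F h2 h3 i j

end Pool.Agent.Q329.HC
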